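import Mathlib
import Pool.Agent.N988.ET.Stm

/-!
# ET/D0: domination, fresh branches
-/

open MeasureTheory Set Filter
open scoped Topology
open Pool.Agent.N988.EA Pool.Agent.N988.EC Pool.Agent.N988.EP Pool.Agent.N988.ES
open Pool.Agent.N988.ET

namespace Pool.Agent.N551.ET

/-- The arithmetic. -/
theorem num {b : ℕ} {p : ℝ} (hC : Crit b p) {n k : ℕ} (hk : 1 ≤ k) (hkb : k < b) {c : ℝ}
    (hc : 0 < c) :
    rho b p ^ (n + 1) * (c * (1 - p ^ 2) ^ k) ≤
        (1 - p) * (c * (1 - p ^ 2) ^ (k - 1) * (rho b p ^ n * p)) ∧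
      rho b p ^ (n + 1) * (c - c * (1 - p ^ 2) ^ k) <
        p * (c * (1 - p ^ 2) ^ (k - 1) * (rho b p ^ n * p)) ∧
      rho b p ^ (n + 1) * c < c * (1 - p ^ 2) ^ (k - 1) * (rho b p ^ n * p) := by
  obtain ⟨hb, hp, hp1, hfix⟩ := hC
  set q : ℝ := 1 - p ^ 2 with hq
  have hq0 : 0 < q := by rw [hq]; nlinarith
  have hq1 : q < 1 := by rw [hq]; nlinarith
  have hρ : rho b p = p * q ^ (b - 1) := rfl
  have hρ0 : 0 < rho b p := by rw [hρ]; positivity
  have hqb : q ^ b = 1 - p := by linarith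
  obtain ⟨k', rfl⟩ : ∃ k', k = k' + 1 := ⟨k - 1, by omega⟩
  obtain ⟨b', rfl⟩ : ∃ b', b = b' + 1 := ⟨b - 1, by omega⟩
  simp only [Nat.add_sub_cancel] at *
  have hlt : q ^ b' < q ^ k' := pow_lt_pow_right_of_lt_one₀ hq0 hq1 (by omega)
  have hlt' : q ^ (b' + 1) < q ^ (k' + 1) := pow_lt_pow_right_of_lt_one₀ hq0 hq1 (by omega)
  have hk1 : q ^ (k' + 1) < 1 := pow_lt_one₀ hq0.le hq1 (by omega)
  have hR : 0 < rho (b' + 1) p ^ n := by positivity
  have hbk : 0 < q ^ k' := by positivity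
  have hbb : 0 < q ^ b' := by positivity
  refine ⟨le_of_eq ?_, ?_, ?_⟩
  · rw [← hqb, pow_succ (rho (b' + 1) p) n, hρ]; ring
  · have h : q ^ b' * (1 - q ^ (k' + 1)) < q ^ k' * p := by
      have h1 : p = 1 - q ^ (b' + 1) := by linarith
      calc q ^ b' * (1 - q ^ (k' + 1)) ≤ q ^ k' * (1 - q ^ (k' + 1)) :=
            mul_le_mul_of_nonneg_right hlt.le (by linarith)
        _ < q ^ k' * p := by
            apply mul_lt_mul_of_pos_left _ hbk
            linarith
    have h2 := mul_lt_mul_of_pos_left h (show 0 < rho (b' + 1) p ^ n * (c * p) by positivity)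
    calc rho (b' + 1) p ^ (n + 1) * (c - c * q ^ (k' + 1))
        = rho (b' + 1) p ^ n * (c * p) * (q ^ b' * (1 - q ^ (k' + 1))) := by
          rw [pow_succ (rho (b' + 1) p) n]; nth_rewrite 2 [hρ]; ring
      _ < rho (b' + 1) p ^ n * (c * p) * (q ^ k' * p) := h2
      _ = _ := by ring
  · have h2 := mul_lt_mul_of_pos_left hlt (show 0 < rho (b' + 1) p ^ n * (c * p) by positivity)
    calc rho (b' + 1) p ^ (n + 1) * c
        = rho (b' + 1) p ^ n * (c * p) * (q ^ b') := by
          rw [pow_succ (rho (b' + 1) p) n]; nth_rewrite 2 [hρ]; ring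
      _ < rho (b' + 1) p ^ n * (c * p) * (q ^ k') := h2
      _ = _ := by ring

theorem t_D0 (h1 : S_B1) (h2 : S_FR) (h3 : S_FAC) : S_D0 := by
  classical
  intro b p hC n F a hF hcl
  have hb : 1 ≤ b := le_trans (by norm_num) hC.two
  have hp := hC.pos
  have hp1 := hC.lt
  obtain ⟨A1, -, A3, A4, A5⟩ := h1 b (n + 1) hb p hp hp1
  obtain ⟨f1, f2, f3⟩ := h2 b p hC n
  have hq0 : 0 < 1 - p ^ 2 := by nlinarith
  have hq1 : 1 - p ^ 2 < 1 := by nlinarith
  have hρ0 : 0 < rho b p := by unfold rho; positivity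
  refine ⟨?_, ?_⟩
  · rintro rfl
    obtain ⟨c, hc, g1, g2, -⟩ := h3 b p hC n ∅ ⟨0, by omega⟩ a
      ⟨by simp, by simp, fun j hj _ => hcl j hj⟩
    have h0 : px p (cs a ⟨0, by omega⟩ false) * px p (cs a ⟨0, by omega⟩ true) = 0 := by
      rcases hcl ⟨0, by omega⟩ (by simp) with h | h <;> simp [h]
    rw [h0] at g2
    rw [A3]
    left
    rw [g1] at g2
    simp at g2
    linarith
  · rintro ⟨i₀, hi₀⟩
    set k := F.card with hk
    have hk1 : 1 ≤ k := by rw [hk]; exact Finset.card_pos.2 ⟨i₀, hi₀⟩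
    have key : ∀ i ∈ F, ∃ c : ℝ, 0 < c ∧ pf p a = c ∧ pf p a - px p a = c * (1 - p ^ 2) ^ k ∧
        (∀ s e, pp p a ((i, s, e) : Edge b (n + 1)) =
          c * (1 - p ^ 2) ^ (k - 1) * (rho b p ^ n * p)) ∧
        ∀ j, j ∉ F → ∀ s e, a ((j, s, e) : Edge b (n + 1)) = none →
          pp p a ((j, s, e) : Edge b (n + 1)) = 0 := by
      intro i hi
      obtain ⟨c, hc, g1, g2, g3, -, g5⟩ := h3 b p hC n (F.erase i) i a
        ⟨by simp, fun j hj s => hF j (Finset.mem_of_mem_erase hj) s, fun j hj hji =>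
          hcl j (fun h => hj (Finset.mem_erase.2 ⟨hji, h⟩))⟩
      rw [hF i hi, hF i hi, f1] at g1 g2
      rw [f2] at g2
      rw [Finset.card_erase_of_mem hi, ← hk] at g2 g3
      refine ⟨c, hc, by linarith, ?_, ?_, ?_⟩
      · rw [g2]
        obtain ⟨k', hk'⟩ : ∃ k', k = k' + 1 := ⟨k - 1, by omega⟩
        rw [hk', Nat.add_sub_cancel]; ring
      · intro s e
        rw [g3 s e, hF i hi, hF i hi, f2, f3]
      · intro j hj s e hn
        exact g5 j (fun h => hj (Finset.mem_of_mem_erase h)) (fun h => hj (h ▸ hi)) s e hn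
    obtain ⟨c, hc, g1, g2, g3, g4⟩ := key i₀ hi₀
    have hnK : ¬ Known a := by
      rw [A3]
      have hqk1 : (1 - p ^ 2) ^ k < 1 := pow_lt_one₀ hq0.le hq1 (by omega)
      have hqk0 : 0 < (1 - p ^ 2) ^ k := by positivity
      have hcq := mul_pos hc hqk0
      have hcq' : c * (1 - p ^ 2) ^ k < c := by nlinarith
      rintro (h | h)
      · rw [h, g1] at g2; linarith
      · rw [h] at g2; linarith
    have inF : ∀ e : Edge b (n + 1), a e = none → 0 < pp p a e →
        e.1 ∈ F ∧ pp p a e = c * (1 - p ^ 2) ^ (k - 1) * (rho b p ^ n * p) := by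
      rintro ⟨j, s, e⟩ hn hpos
      have hj : j ∈ F := by
        by_contra hj
        have := g4 j hj s e hn
        rw [this] at hpos
        exact lt_irrefl _ hpos
      obtain ⟨c', hc', g1', -, g3', -⟩ := key j hj
      have : c' = c := by rw [← g1', g1]
      exact ⟨hj, by rw [g3' s e, this]⟩
    obtain ⟨e₁, he₁, hpos₁⟩ := A5 a hnK
    refine ⟨hnK, ?_, ?_⟩
    · by_cases hU : F = Finset.univ
      · left
        funext ⟨i, s, e⟩
        have := congrFun (hF i (by rw [hU]; exact Finset.mem_univ i) s) e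
        exact this
      · right
        have hkb : k < b := by
          have := Finset.card_lt_univ_of_notMem (s := F) (x := (by
            classical
            exact (Finset.exists_mem_notMem_of_card_lt_card (s := F) (t := Finset.univ) (by
              rcases lt_or_eq_of_le (Finset.card_le_univ F) with h | h
              · simpa using h
              · exact absurd (Finset.card_eq_iff_eq_univ F |>.1 h) hU)).choose)) (by
            exact (Finset.exists_mem_notMem_of_card_lt_card (s := F) (t := Finset.univ) (by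
              rcases lt_or_eq_of_le (Finset.card_le_univ F) with h | h
              · simpa using h
              · exact absurd (Finset.card_eq_iff_eq_univ F |>.1 h) hU)).choose_spec.2)
          simpa using this
        obtain ⟨-, hpe⟩ := inF e₁ he₁ hpos₁
        obtain ⟨m1, m2, m3⟩ := num hC (n := n) hk1 hkb hc
        refine ⟨e₁, he₁, ?_, ?_, ?_⟩
        · rw [hpe, g2]; exact m1
        · have : px p a = c - c * (1 - p ^ 2) ^ k := by linarith
          rw [hpe, this]; exact m2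
        · rw [hpe, g1]; exact m3
    · rintro ⟨j, s, e'⟩ ⟨hn, hmax⟩
      have hpos : 0 < pp p a ((j, s, e') : Edge b (n + 1)) :=
        lt_of_lt_of_le hpos₁ (hmax e₁ he₁)
      obtain ⟨hj, -⟩ := inF _ hn hpos
      refine ⟨j, hj, s, e', rfl, rfl, fun e'' _ => ?_⟩
      rw [f3, f3]

end Pool.Agent.N551.ET
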